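import Pool.Agent.R258.Variance

/-!
The Böttcher–Wenzel type bound `‖ABC - CBA‖_F² ≤ 2 ‖B‖₂² (σ₁(A)² + σ₂(A)²) ‖C‖_F²`.
-/

namespace Pool.Agent.R258.BWTriple

open Matrix Complex ComplexConjugate Module

/-- Squared Frobenius norm. -/
noncomputable def fro {a b : Type*} [Fintype a] [Fintype b] (Z : Matrix a b ℂ) : ℝ :=
  ∑ i, ∑ j, ‖Z i j‖ ^ 2

section

variable {a b c : Type*} [Fintype a] [Fintype b] [Fintype c]

lemma fro_nonneg (Z : Matrix a b ℂ) : 0 ≤ fro Z :=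
  Finset.sum_nonneg fun _ _ => Finset.sum_nonneg fun _ _ => by positivity

lemma fro_eq (Z : Matrix a b ℂ) : ((fro Z : ℝ) : ℂ) = (Zᴴ * Z).trace := by
  unfold fro
  rw [Finset.sum_comm]
  push_cast
  simp only [trace, diag_apply, mul_apply, conjTranspose_apply]
  refine Finset.sum_congr rfl fun j _ => Finset.sum_congr rfl fun i _ => ?_
  rw [← Complex.conj_mul' (Z i j)]
  rfl

lemma fro_conjTranspose (Z : Matrix a b ℂ) : fro Zᴴ = fro Z := by
  unfold fro
  rw [Finset.sum_comm]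
  simp [conjTranspose_apply]

lemma fro_isometry_mul [DecidableEq b] (V : Matrix a b ℂ) (hV : Vᴴ * V = 1) (Z : Matrix b c ℂ) :
    fro (V * Z) = fro Z := by
  have : ((fro (V * Z) : ℝ) : ℂ) = ((fro Z : ℝ) : ℂ) := by
    rw [fro_eq, fro_eq, conjTranspose_mul, Matrix.mul_assoc, ← Matrix.mul_assoc Vᴴ, hV,
      Matrix.one_mul]
  exact_mod_cast this

lemma fro_smul (r : ℝ) (Z : Matrix a b ℂ) : fro ((r : ℂ) • Z) = r ^ 2 * fro Z := by
  unfold fro
  simp only [Finset.mul_sum, Matrix.smul_apply, smul_eq_mul, norm_mul, mul_pow, Complex.norm_real,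
    Real.norm_eq_abs, sq_abs]

end

section

variable {ι : Type*} [Fintype ι] [DecidableEq ι]

lemma fro_mul_col (X : Matrix ι ι ℂ) (Z : Matrix ι ι ℂ) :
    fro (X * Z) = ∑ j, ‖toEuclideanCLM (𝕜 := ℂ) X (WithLp.toLp 2 (fun i => Z i j))‖ ^ 2 := by
  unfold fro
  rw [Finset.sum_comm]
  refine Finset.sum_congr rfl fun j _ => ?_
  rw [EuclideanSpace.norm_sq_eq]
  refine Finset.sum_congr rfl fun i _ => ?_
  congr 2

omit [DecidableEq ι] in
lemma fro_col (Z : Matrix ι ι ℂ) :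
    fro Z = ∑ j, ‖(WithLp.toLp 2 (fun i => Z i j) : EuclideanSpace ℂ ι)‖ ^ 2 := by
  unfold fro
  rw [Finset.sum_comm]
  refine Finset.sum_congr rfl fun j _ => ?_
  rw [EuclideanSpace.norm_sq_eq]

lemma bound_mul (X : Matrix ι ι ℂ) {κ : ℝ}
    (h : ∀ x : EuclideanSpace ℂ ι, ‖toEuclideanCLM (𝕜 := ℂ) X x‖ ^ 2 +
      ‖toEuclideanCLM (𝕜 := ℂ) Xᴴ x‖ ^ 2 ≤ κ * ‖x‖ ^ 2) (Z : Matrix ι ι ℂ) :
    fro (X * Z) + fro (Xᴴ * Z) ≤ κ * fro Z := by
  rw [fro_mul_col, fro_mul_col, fro_col Z, ← Finset.sum_add_distrib, Finset.mul_sum]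
  exact Finset.sum_le_sum fun j _ => h _

omit [DecidableEq ι] in
lemma comm_identity (X Y : Matrix ι ι ℂ) :
    fro (X * Y - Y * X) + fro (X * Yᴴ + Yᴴ * X) =
      fro (X * Y) + fro (Xᴴ * Y) + (fro (X * Yᴴ) + fro (Xᴴ * Yᴴ)) := by
  have : ((fro (X * Y - Y * X) + fro (X * Yᴴ + Yᴴ * X) : ℝ) : ℂ) =
      ((fro (X * Y) + fro (Xᴴ * Y) + (fro (X * Yᴴ) + fro (Xᴴ * Yᴴ)) : ℝ) : ℂ) := by
    push_cast
    simp only [fro_eq, conjTranspose_sub, conjTranspose_add, conjTranspose_mul,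
      conjTranspose_conjTranspose, Matrix.mul_sub, Matrix.mul_add, Matrix.sub_mul, Matrix.add_mul,
      trace_add, trace_sub]
    have e1 : (Xᴴ * Yᴴ * (X * Y)).trace = (Y * Xᴴ * (Yᴴ * X)).trace := by
      rw [← Matrix.mul_assoc (Xᴴ * Yᴴ) X Y, trace_mul_comm, ← Matrix.mul_assoc, ← Matrix.mul_assoc,
        ← Matrix.mul_assoc]
    have e2 : (Yᴴ * Xᴴ * (Y * X)).trace = (Xᴴ * Y * (X * Yᴴ)).trace := by
      rw [Matrix.mul_assoc Yᴴ, trace_mul_comm, ← Matrix.mul_assoc, ← Matrix.mul_assoc]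
    have e3 : (Xᴴ * Yᴴ * (Y * X)).trace = (Y * X * (Xᴴ * Yᴴ)).trace := trace_mul_comm _ _
    have e4 : (Xᴴ * Y * (Yᴴ * X)).trace = (Yᴴ * X * (Xᴴ * Y)).trace := trace_mul_comm _ _
    rw [e1, e2, e3, e4]
    ring
  exact_mod_cast this

/-- The commutator bound with the two-dimensional Ky Fan constant of `X`. -/
theorem comm_bound (X Y : Matrix ι ι ℂ) (hdim : 2 ≤ Fintype.card ι) {κ : ℝ}
    (hκ : ∀ u v : EuclideanSpace ℂ ι, ‖u‖ = 1 → ‖v‖ = 1 → inner ℂ u v = 0 →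
      ‖toEuclideanCLM (𝕜 := ℂ) X u‖ ^ 2 + ‖toEuclideanCLM (𝕜 := ℂ) X v‖ ^ 2 ≤ κ) :
    fro (X * Y - Y * X) ≤ 2 * κ * fro Y := by
  obtain ⟨z, hz⟩ := Variance.exists_shift (toEuclideanCLM (𝕜 := ℂ) X)
    (by rw [finrank_euclideanSpace]; exact hdim) hκ
  set X' : Matrix ι ι ℂ := X - z • 1 with hX'
  have h1 : X * Y - Y * X = X' * Y - Y * X' := by
    rw [hX', Matrix.sub_mul, Matrix.mul_sub, Matrix.smul_mul, Matrix.mul_smul, Matrix.one_mul,
      Matrix.mul_one]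
    abel
  have h2 : ∀ x : EuclideanSpace ℂ ι, ‖toEuclideanCLM (𝕜 := ℂ) X' x‖ ^ 2 +
      ‖toEuclideanCLM (𝕜 := ℂ) X'ᴴ x‖ ^ 2 ≤ κ * ‖x‖ ^ 2 := by
    intro x
    have := hz x
    have e1 : toEuclideanCLM (𝕜 := ℂ) X' x = toEuclideanCLM (𝕜 := ℂ) X x - z • x := by
      rw [hX', map_sub, map_smul, map_one]
      rfl
    have e2 : toEuclideanCLM (𝕜 := ℂ) X'ᴴ x =
        ContinuousLinearMap.adjoint (toEuclideanCLM (𝕜 := ℂ) X) x - (conj z) • x := by
      have e3 : toEuclideanCLM (𝕜 := ℂ) Xᴴ = ContinuousLinearMap.adjoint (toEuclideanCLM (𝕜 := ℂ) X) :=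
        map_star (toEuclideanCLM (𝕜 := ℂ)) X
      have e4 : X'ᴴ = Xᴴ - (conj z) • 1 := by
        rw [hX', conjTranspose_sub, conjTranspose_smul, conjTranspose_one]
        rfl
      rw [e4, map_sub, map_smul, map_one, e3]
      rfl
    rw [e1, e2]
    exact this
  rw [h1]
  have h3 := comm_identity X' Y
  have h4 := bound_mul X' h2 Y
  have h5 := bound_mul X' h2 Yᴴ
  rw [fro_conjTranspose] at h5
  have h6 := fro_nonneg (X' * Yᴴ + Yᴴ * X')
  linarith

end

/-- Two orthonormal vectors pushed through a contraction and then `T`. -/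
theorem ky_fan_two {F G : Type*} [NormedAddCommGroup F] [InnerProductSpace ℂ F]
    [FiniteDimensional ℂ F] [NormedAddCommGroup G] [InnerProductSpace ℂ G] [FiniteDimensional ℂ G]
    (T : F →ₗ[ℂ] G) (p q : F) (hp : ‖p‖ ≤ 1) (hq : ‖q‖ ≤ 1)
    (hpq : ∀ x : F, ‖inner ℂ x p‖ ^ 2 + ‖inner ℂ x q‖ ^ 2 ≤ ‖x‖ ^ 2) :
    ‖T p‖ ^ 2 + ‖T q‖ ^ 2 ≤ T.singularValues 0 ^ 2 + T.singularValues 1 ^ 2 := by
  set n := finrank ℂ F with hn
  have hpos := T.isPositive_adjoint_comp_self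
  set b := hpos.isSymmetric.eigenvectorBasis hn.symm with hb
  have key : ∀ p : F, ‖T p‖ ^ 2 = ∑ i : Fin n, T.singularValues i ^ 2 * ‖inner ℂ (b i) p‖ ^ 2 := by
    intro p
    have h1 : ((‖T p‖ ^ 2 : ℝ) : ℂ) = inner ℂ p ((LinearMap.adjoint T ∘ₗ T) p) := by
      rw [LinearMap.comp_apply, LinearMap.adjoint_inner_right, inner_self_eq_norm_sq_to_K]
      norm_cast
    have h2 : inner ℂ p ((LinearMap.adjoint T ∘ₗ T) p) =
        ∑ i : Fin n, inner ℂ p (b i) * inner ℂ (b i) ((LinearMap.adjoint T ∘ₗ T) p) :=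
      (b.sum_inner_mul_inner _ _).symm
    have h3 : ∀ i : Fin n, inner ℂ (b i) ((LinearMap.adjoint T ∘ₗ T) p) =
        ((T.singularValues i ^ 2 : ℝ) : ℂ) * inner ℂ (b i) p := by
      intro i
      rw [← hpos.isSymmetric (b i) p, hb, hpos.isSymmetric.apply_eigenvectorBasis, inner_smul_left,
        T.sq_singularValues_fin hn.symm i]
      simp
    rw [h2] at h1
    have h4 : ((‖T p‖ ^ 2 : ℝ) : ℂ) =
        ((∑ i : Fin n, T.singularValues i ^ 2 * ‖inner ℂ (b i) p‖ ^ 2 : ℝ) : ℂ) := by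
      rw [h1, Complex.ofReal_sum]
      refine Finset.sum_congr rfl fun i _ => ?_
      rw [h3, ← inner_conj_symm p (b i), mul_left_comm, Complex.conj_mul', Complex.ofReal_mul,
        Complex.ofReal_pow]
      rw [Complex.ofReal_pow]
    exact_mod_cast h4
  rw [key p, key q, ← Finset.sum_add_distrib]
  have hr : ∀ i : Fin n, ‖inner ℂ (b i) p‖ ^ 2 + ‖inner ℂ (b i) q‖ ^ 2 ≤ 1 := by
    intro i
    have := hpq (b i)
    rwa [b.norm_eq_one, one_pow] at this
  have hsum : ∑ i : Fin n, (‖inner ℂ (b i) p‖ ^ 2 + ‖inner ℂ (b i) q‖ ^ 2) ≤ 2 := by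
    rw [Finset.sum_add_distrib, b.sum_sq_norm_inner_right, b.sum_sq_norm_inner_right]
    nlinarith [norm_nonneg p, norm_nonneg q]
  have hmono : T.singularValues 1 ≤ T.singularValues 0 := T.singularValues_antitone zero_le_one
  have h10 : T.singularValues 1 ^ 2 ≤ T.singularValues 0 ^ 2 :=
    pow_le_pow_left₀ (T.singularValues_nonneg 1) hmono 2
  have hterm : ∀ i : Fin n, T.singularValues i ^ 2 * ‖inner ℂ (b i) p‖ ^ 2 +
      T.singularValues i ^ 2 * ‖inner ℂ (b i) q‖ ^ 2 ≤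
      T.singularValues 1 ^ 2 * (‖inner ℂ (b i) p‖ ^ 2 + ‖inner ℂ (b i) q‖ ^ 2) +
        (if (i : ℕ) = 0 then (T.singularValues 0 ^ 2 - T.singularValues 1 ^ 2) else 0) := by
    intro i
    set r := ‖inner ℂ (b i) p‖ ^ 2 + ‖inner ℂ (b i) q‖ ^ 2 with hrdef
    have hr0 : 0 ≤ r := by positivity
    rw [← mul_add, ← hrdef]
    split_ifs with h
    · rw [h]
      nlinarith [hr i]
    · have h1 : T.singularValues i ≤ T.singularValues 1 :=
        T.singularValues_antitone (Nat.one_le_iff_ne_zero.2 h)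
      have h2 : T.singularValues i ^ 2 ≤ T.singularValues 1 ^ 2 :=
        pow_le_pow_left₀ (T.singularValues_nonneg _) h1 2
      nlinarith
  have hite : ∑ i : Fin n, (if (i : ℕ) = 0 then (T.singularValues 0 ^ 2 - T.singularValues 1 ^ 2)
      else 0) ≤ T.singularValues 0 ^ 2 - T.singularValues 1 ^ 2 := by
    rcases Nat.eq_zero_or_pos n with h0 | h0
    · have : IsEmpty (Fin n) := by rw [h0]; infer_instance
      simp only [Finset.univ_eq_empty, Finset.sum_empty]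
      linarith
    · rw [Finset.sum_eq_single (⟨0, h0⟩ : Fin n)]
      · simp
      · intro i _ hi
        rw [if_neg]
        intro h
        exact hi (Fin.ext h)
      · simp
  calc _ ≤ ∑ i : Fin n, (T.singularValues 1 ^ 2 * (‖inner ℂ (b i) p‖ ^ 2 + ‖inner ℂ (b i) q‖ ^ 2) +
        (if (i : ℕ) = 0 then (T.singularValues 0 ^ 2 - T.singularValues 1 ^ 2) else 0)) :=
        Finset.sum_le_sum fun i _ => hterm i
    _ ≤ _ := by
        rw [Finset.sum_add_distrib, ← Finset.mul_sum]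
        nlinarith [sq_nonneg (T.singularValues 1)]

section

open scoped Matrix.Norms.L2Operator MatrixOrder ComplexOrder

variable {m n : ℕ}

/-- A contraction extends to an isometry. -/
lemma exists_isometry (B : Matrix (Fin n) (Fin m) ℂ) (hB : ‖B‖ ≤ 1) :
    ∃ D : Matrix (Fin m) (Fin m) ℂ, (fromRows B D)ᴴ * fromRows B D = 1 := by
  have hpos : (1 - Bᴴ * B).PosSemidef := by
    refine PosSemidef.of_dotProduct_mulVec_nonneg ?_ fun x => ?_
    · rw [IsHermitian, conjTranspose_sub, conjTranspose_one, conjTranspose_mul,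
        conjTranspose_conjTranspose]
    · have h1 := l2_opNorm_mulVec B (WithLp.toLp 2 x)
      have h2 : ‖(EuclideanSpace.equiv (Fin n) ℂ).symm (B *ᵥ x)‖ ^ 2 ≤
          ‖(WithLp.toLp 2 x : EuclideanSpace ℂ (Fin m))‖ ^ 2 := by
        refine pow_le_pow_left₀ (norm_nonneg _) (h1.trans ?_) 2
        nlinarith [norm_nonneg (WithLp.toLp 2 x : EuclideanSpace ℂ (Fin m))]
      rw [EuclideanSpace.norm_sq_eq, EuclideanSpace.norm_sq_eq] at h2
      have h3 : star x ⬝ᵥ ((1 - Bᴴ * B) *ᵥ x) =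
          (((∑ i, ‖x i‖ ^ 2) - (∑ i, ‖(B *ᵥ x) i‖ ^ 2) : ℝ) : ℂ) := by
        rw [sub_mulVec, one_mulVec, dotProduct_sub, ← mulVec_mulVec, dotProduct_mulVec,
          vecMul_conjTranspose, star_star]
        push_cast
        simp only [dotProduct, Pi.star_apply]
        congr 1
        · exact Finset.sum_congr rfl fun i _ => Complex.conj_mul' _
        · exact Finset.sum_congr rfl fun i _ => Complex.conj_mul' _
      rw [h3]
      have : (0 : ℝ) ≤ (∑ i, ‖x i‖ ^ 2) - (∑ i, ‖(B *ᵥ x) i‖ ^ 2) := by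
        have := h2
        simp only [EuclideanSpace.equiv] at this
        exact sub_nonneg.2 this
      exact_mod_cast this
  obtain ⟨D, hD⟩ := CStarAlgebra.nonneg_iff_eq_star_mul_self.1 hpos.nonneg
  refine ⟨D, ?_⟩
  rw [conjTranspose_fromRows_eq_fromCols_conjTranspose, fromCols_mul_fromRows]
  have : Dᴴ * D = 1 - Bᴴ * B := hD.symm
  rw [this]
  abel

lemma fro_fromCols_zero {a b c : Type*} [Fintype a] [Fintype b] [Fintype c] (Z : Matrix a b ℂ) :
    fro (fromCols Z (0 : Matrix a c ℂ)) = fro Z := by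
  unfold fro
  refine Finset.sum_congr rfl fun i _ => ?_
  rw [Fintype.sum_sum_type]
  simp

lemma norm_isometry {a b : Type*} [Fintype a] [Fintype b] [DecidableEq b] (V : Matrix a b ℂ)
    (hV : Vᴴ * V = 1) (w : b → ℂ) : ∑ i, ‖(V *ᵥ w) i‖ ^ 2 = ∑ i, ‖w i‖ ^ 2 := by
  have := fro_isometry_mul V hV (of fun i (_ : Unit) => w i)
  unfold fro at this
  simpa [mul_apply, mulVec, dotProduct] using this

theorem contraction_case (hm : 1 ≤ m) (hn : 1 ≤ n) (A C : Matrix (Fin m) (Fin n) ℂ)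
    (B : Matrix (Fin n) (Fin m) ℂ) (hB : ‖B‖ ≤ 1) :
    fro (A * B * C - C * B * A) ≤ 2 * ((toEuclideanLin A).singularValues 0 ^ 2 +
      (toEuclideanLin A).singularValues 1 ^ 2) * fro C := by
  obtain ⟨D, hD⟩ := exists_isometry B hB
  set V := fromRows B D with hV
  set A' : Matrix (Fin m) (Fin n ⊕ Fin m) ℂ := fromCols A 0 with hA'
  set C' : Matrix (Fin m) (Fin n ⊕ Fin m) ℂ := fromCols C 0 with hC'
  have hAV : A' * V = A * B := by
    rw [hA', hV, fromCols_mul_fromRows, Matrix.zero_mul, add_zero]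
  have hCV : C' * V = C * B := by
    rw [hC', hV, fromCols_mul_fromRows, Matrix.zero_mul, add_zero]
  have hcomm : (V * A') * (V * C') - (V * C') * (V * A') =
      V * fromCols (A * B * C - C * B * A) 0 := by
    rw [Matrix.mul_assoc V A', ← Matrix.mul_assoc A' V C', hAV, Matrix.mul_assoc V C',
      ← Matrix.mul_assoc C' V A', hCV, ← Matrix.mul_sub, hA', hC', mul_fromCols, mul_fromCols]
    congr 1
    ext i (j | j) <;> simp
  have key := comm_bound (V * A') (V * C') (by simp; omega)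
    (κ := (toEuclideanLin A).singularValues 0 ^ 2 + (toEuclideanLin A).singularValues 1 ^ 2) ?_
  · rw [hcomm, fro_isometry_mul V hD, fro_isometry_mul V hD, fro_fromCols_zero, hC',
      fro_fromCols_zero] at key
    exact key
  · intro u v hu hv huv
    have hX : ∀ w : EuclideanSpace ℂ (Fin n ⊕ Fin m),
        ‖toEuclideanCLM (𝕜 := ℂ) (V * A') w‖ ^ 2 =
          ‖toEuclideanLin A (WithLp.toLp 2 fun i => w (Sum.inl i))‖ ^ 2 := by
      intro w
      have e1 : toEuclideanCLM (𝕜 := ℂ) (V * A') w =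
          WithLp.toLp 2 (V *ᵥ (A *ᵥ fun i => w (Sum.inl i))) := by
        have : (V * A') *ᵥ (w : Fin n ⊕ Fin m → ℂ) = V *ᵥ (A *ᵥ fun i => w (Sum.inl i)) := by
          rw [← mulVec_mulVec, hA', fromCols_mulVec, zero_mulVec, add_zero]
          rfl
        rw [← this]
        rfl
      have e2 : toEuclideanLin A (WithLp.toLp 2 fun i => w (Sum.inl i)) =
          WithLp.toLp 2 (A *ᵥ fun i => w (Sum.inl i)) := rfl
      rw [e1, e2, EuclideanSpace.norm_sq_eq, EuclideanSpace.norm_sq_eq]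
      exact norm_isometry V hD _
    rw [hX, hX]
    have hle : ∀ w : EuclideanSpace ℂ (Fin n ⊕ Fin m), ‖w‖ = 1 →
        ‖(WithLp.toLp 2 fun i => w (Sum.inl i) : EuclideanSpace ℂ (Fin n))‖ ≤ 1 := by
      intro w hw
      have h1 : ‖(WithLp.toLp 2 fun i => w (Sum.inl i) : EuclideanSpace ℂ (Fin n))‖ ^ 2 ≤
          ‖w‖ ^ 2 := by
        rw [EuclideanSpace.norm_sq_eq, EuclideanSpace.norm_sq_eq, Fintype.sum_sum_type]
        have : 0 ≤ ∑ i, ‖w (Sum.inr i)‖ ^ 2 := Finset.sum_nonneg fun _ _ => by positivity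
        simpa using this
      rw [hw] at h1
      nlinarith [norm_nonneg (WithLp.toLp 2 fun i => w (Sum.inl i) : EuclideanSpace ℂ (Fin n))]
    refine ky_fan_two (toEuclideanLin A) _ _ (hle u hu) (hle v hv) fun x => ?_
    have horth : Orthonormal ℂ ![u, v] := by
      rw [orthonormal_iff_ite]
      intro i j
      have hvu : inner ℂ v u = 0 := by rw [← inner_conj_symm, huv, map_zero]
      fin_cases i <;> fin_cases j <;> simp [huv, hvu, inner_self_eq_norm_sq_to_K, hu, hv]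
    set y : EuclideanSpace ℂ (Fin n ⊕ Fin m) := WithLp.toLp 2 (Sum.elim (fun i => x i) 0) with hy
    have hyn : ‖y‖ ^ 2 = ‖x‖ ^ 2 := by
      rw [EuclideanSpace.norm_sq_eq, EuclideanSpace.norm_sq_eq, Fintype.sum_sum_type]
      simp [hy]
    have hin : ∀ w : EuclideanSpace ℂ (Fin n ⊕ Fin m),
        inner ℂ x (WithLp.toLp 2 fun i => w (Sum.inl i) : EuclideanSpace ℂ (Fin n)) =
          inner ℂ y w := by
      intro w
      rw [PiLp.inner_apply, PiLp.inner_apply, Fintype.sum_sum_type]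
      simp [hy]
    have hb := horth.sum_inner_products_le (x := y) (s := Finset.univ)
    rw [Fin.sum_univ_two] at hb
    simp only [Matrix.cons_val_zero, Matrix.cons_val_one] at hb
    rw [hin, hin, norm_inner_symm y u, norm_inner_symm y v, ← hyn]
    exact hb

theorem main (A C : Matrix (Fin m) (Fin n) ℂ) (B : Matrix (Fin n) (Fin m) ℂ) :
    ∑ i, ∑ j, ‖(A * B * C - C * B * A) i j‖ ^ 2 ≤
      2 * ‖B‖ ^ 2 * ((toEuclideanLin A).singularValues 0 ^ 2 +
        (toEuclideanLin A).singularValues 1 ^ 2) * ∑ i, ∑ j, ‖C i j‖ ^ 2 := by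
  rcases Nat.eq_zero_or_pos m with hm | hm
  · subst hm
    simp
  rcases Nat.eq_zero_or_pos n with hn | hn
  · subst hn
    simp
  by_cases hB : ‖B‖ = 0
  · have : B = 0 := norm_eq_zero.1 hB
    subst this
    simp
  have hBpos : 0 < ‖B‖ := lt_of_le_of_ne (norm_nonneg _) (Ne.symm hB)
  set r : ℝ := ‖B‖ with hr
  set B₁ : Matrix (Fin n) (Fin m) ℂ := ((r⁻¹ : ℝ) : ℂ) • B with hB₁
  have hB₁n : ‖B₁‖ ≤ 1 := by
    rw [hB₁, norm_smul, Complex.norm_real, norm_inv, Real.norm_of_nonneg hBpos.le, ← hr,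
      inv_mul_cancel₀ hB]
  have hBB : B = (r : ℂ) • B₁ := by
    rw [hB₁, smul_smul, ← Complex.ofReal_mul, mul_inv_cancel₀ hB, Complex.ofReal_one, one_smul]
  have key := contraction_case hm hn A C B₁ hB₁n
  have h0 : ∀ (s : ℂ) (B₂ : Matrix (Fin n) (Fin m) ℂ),
      A * (s • B₂) * C - C * (s • B₂) * A = s • (A * B₂ * C - C * B₂ * A) := by
    intro s B₂
    rw [Matrix.mul_smul, Matrix.mul_smul, Matrix.smul_mul, Matrix.smul_mul, ← smul_sub]
  have h1 : A * B * C - C * B * A = (r : ℂ) • (A * B₁ * C - C * B₁ * A) := by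
    have := h0 (r : ℂ) B₁
    rwa [← hBB] at this
  have h2 : fro (A * B * C - C * B * A) = r ^ 2 * fro (A * B₁ * C - C * B₁ * A) := by
    rw [h1, fro_smul]
  change fro (A * B * C - C * B * A) ≤ 2 * r ^ 2 * _ * fro C
  rw [h2]
  have h3 := mul_le_mul_of_nonneg_left key (sq_nonneg r)
  calc _ ≤ _ := h3
    _ = _ := by ring

end

end Pool.Agent.R258.BWTriple
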