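import Pool.Agent.R825.MK.Stmts

/-!
# MK-A: upper bound for Minkowski power series of typical compact sets (`St_A`)
-/

set_option autoImplicit false

open TopologicalSpace Filter Topology Set Pool.Agent.R825.MK

namespace Pool.Agent.R258.MKA

lemma mem_minkPow_succ (K : KK01) (i : ℕ) (z : ℝ) :
    z ∈ MinkPow K (i + 1) ↔ ∃ a ∈ MinkPow K i, ∃ b : Icc (0 : ℝ) 1, b ∈ K ∧ a * b = z := by
  rw [← SetLike.mem_coe, MinkPow, NonemptyCompacts.coe_map, NonemptyCompacts.coe_prod,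
    NonemptyCompacts.coe_map]
  constructor
  · rintro ⟨⟨a, b⟩, ⟨ha, ⟨c, hc, hcb⟩⟩, h⟩
    simp only at ha hcb h
    exact ⟨a, ha, c, hc, by rw [hcb]; exact h⟩
  · rintro ⟨a, ha, b, hb, h⟩
    exact ⟨(a, b), ⟨ha, ⟨b, hb, rfl⟩⟩, h⟩

lemma mem_minkPow_zero (K : KK01) (z : ℝ) : z ∈ MinkPow K 0 ↔ z = 1 := by
  rw [MinkPow]
  simp [← SetLike.mem_coe]

lemma minkPow_mem_Icc (K : KK01) (i : ℕ) (z : ℝ) (hz : z ∈ MinkPow K i) : 0 ≤ z ∧ z ≤ 1 := by
  induction i generalizing z with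
  | zero =>
    rw [mem_minkPow_zero] at hz
    subst hz
    exact ⟨by norm_num, le_rfl⟩
  | succ i ih =>
    obtain ⟨a, ha, b, -, rfl⟩ := (mem_minkPow_succ K i z).1 hz
    obtain ⟨h1, h2⟩ := ih a ha
    have h3 := b.2.1
    have h4 := b.2.2
    exact ⟨mul_nonneg h1 h3, mul_le_one₀ h2 h3 h4⟩

lemma mem_partialSum_succ (a : ℕ → ℝ) (K : KK01) (n : ℕ) (z : ℝ) :
    z ∈ PartialSum a K (n + 1) ↔ ∃ u ∈ PartialSum a K n, ∃ b ∈ MinkPow K (n + 1),
      u + a (n + 1) * b = z := by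
  rw [← SetLike.mem_coe, PartialSum, NonemptyCompacts.coe_map, NonemptyCompacts.coe_prod]
  constructor
  · rintro ⟨⟨u, b⟩, ⟨hu, hb⟩, h⟩
    exact ⟨u, hu, b, hb, h⟩
  · rintro ⟨u, hu, b, hb, h⟩
    exact ⟨(u, b), ⟨hu, hb⟩, h⟩

lemma mem_partialSum_zero (a : ℕ → ℝ) (K : KK01) (z : ℝ) :
    z ∈ PartialSum a K 0 ↔ z = a 0 := by
  rw [← SetLike.mem_coe, PartialSum, NonemptyCompacts.coe_map]
  constructor
  · rintro ⟨b, hb, rfl⟩
    have : b = 1 := (mem_minkPow_zero K b).1 hb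
    rw [this]; simp
  · rintro rfl
    exact ⟨1, (mem_minkPow_zero K 1).2 rfl, by simp⟩

lemma dist_partialSum (a : ℕ → ℝ) (ha : ∀ i, 0 < a i) (K : KK01) (n : ℕ) :
    dist (PartialSum a K n) (PartialSum a K (n + 1)) ≤ a (n + 1) := by
  rw [Metric.NonemptyCompacts.dist_eq]
  have key : ∀ u b : ℝ, b ∈ MinkPow K (n + 1) →
      dist u (u + a (n + 1) * b) ≤ a (n + 1) := by
    intro u b hb
    obtain ⟨h1, h2⟩ := minkPow_mem_Icc K _ b hb
    have := ha (n + 1)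
    rw [dist_comm, Real.dist_eq, add_sub_cancel_left, abs_of_nonneg (by positivity)]
    nlinarith
  apply Metric.hausdorffDist_le_of_mem_dist (ha _).le
  · intro u hu
    obtain ⟨b, hb⟩ := (MinkPow K (n + 1)).nonempty
    exact ⟨_, (mem_partialSum_succ a K n _).2 ⟨u, hu, b, hb, rfl⟩, key u b hb⟩
  · intro z hz
    obtain ⟨u, hu, b, hb, rfl⟩ := (mem_partialSum_succ a K n z).1 hz
    exact ⟨u, hu, by rw [dist_comm]; exact key u b hb⟩

/-- sets which are close to finitely many powers -/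
def Opn (r : ℕ) (d : ℝ) : Set KK01 :=
  {K | ∃ ρ : ℝ, 0 < ρ ∧ ρ ≤ 1 ∧ ∀ x ∈ K, ∃ e ≤ r, |(x : ℝ) - ρ ^ e| < d}

lemma isOpen_opn (r : ℕ) (d : ℝ) : IsOpen (Opn r d) := by
  rw [Metric.isOpen_iff]
  rintro K ⟨ρ, h0, h1, hK⟩
  set V : Set (Icc (0 : ℝ) 1) := ⋃ e ∈ Finset.range (r + 1), {x | |(x : ℝ) - ρ ^ e| < d} with hV
  have hVo : IsOpen V := by
    apply isOpen_biUnion
    intro e _
    exact isOpen_lt (by fun_prop) continuous_const
  have hKV : (K : Set (Icc (0 : ℝ) 1)) ⊆ V := by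
    intro x hx
    obtain ⟨e, he, h⟩ := hK x hx
    rw [hV, mem_iUnion₂]
    exact ⟨e, Finset.mem_range.2 (by omega), h⟩
  obtain ⟨ε, hε, hth⟩ := K.isCompact.exists_thickening_subset_open hVo hKV
  refine ⟨ε, hε, ?_⟩
  intro K' hK'
  rw [Metric.mem_ball, Metric.NonemptyCompacts.dist_eq] at hK'
  have hfin : Metric.hausdorffEDist (K' : Set (Icc (0 : ℝ) 1)) (K : Set (Icc (0 : ℝ) 1)) ≠ ⊤ :=
    Metric.hausdorffEDist_ne_top_of_nonempty_of_bounded K'.nonempty K.nonempty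
      K'.isCompact.isBounded K.isCompact.isBounded
  refine ⟨ρ, h0, h1, ?_⟩
  intro x' hx'
  obtain ⟨x, hx, hdx⟩ := Metric.exists_dist_lt_of_hausdorffDist_lt (x := x') hx' hK' hfin
  have hmem : x' ∈ V := hth (Metric.mem_thickening_iff.2 ⟨x, hx, hdx⟩)
  rw [hV, mem_iUnion₂] at hmem
  obtain ⟨e, he, h⟩ := hmem
  exact ⟨e, by have := Finset.mem_range.1 he; omega, h⟩

lemma grid (ρ : ℝ) (h0 : 0 < ρ) (h1 : ρ < 1) (E : ℕ) (η : ℝ) (hη : 1 - ρ ≤ η) (hE : ρ ^ E ≤ η)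
    (x : ℝ) (hx0 : 0 ≤ x) (hx1 : x ≤ 1) : ∃ e ≤ E, |x - ρ ^ e| ≤ η := by
  have hp : 0 < ρ ^ E := pow_pos h0 _
  by_cases hx : x ≤ ρ ^ E
  · refine ⟨E, le_rfl, ?_⟩
    rw [abs_le]; constructor <;> linarith
  · push Not at hx
    have hex : ∃ e, ρ ^ e ≤ x := ⟨E, hx.le⟩
    classical
    have hf := Nat.find_spec hex
    have hfE : Nat.find hex ≤ E := Nat.find_min' hex hx.le
    refine ⟨Nat.find hex, hfE, ?_⟩
    rcases Nat.eq_zero_or_pos (Nat.find hex) with h | h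
    · rw [h] at hf ⊢
      simp only [pow_zero] at hf ⊢
      have : x = 1 := le_antisymm hx1 hf
      rw [this]; simp; linarith
    · have hlt := Nat.find_min hex (show Nat.find hex - 1 < Nat.find hex by omega)
      push Not at hlt
      set e := Nat.find hex - 1 with he
      have hee : Nat.find hex = e + 1 := by omega
      rw [hee] at hf ⊢
      have hpe : ρ ^ e ≤ 1 := pow_le_one₀ h0.le h1.le
      have hpe0 : 0 < ρ ^ e := pow_pos h0 _
      rw [abs_le, pow_succ] at *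
      constructor <;> nlinarith

lemma dense_opn (R : ℕ → ℕ) (D : ℕ → ℝ) (hR : ∀ n, n ≤ R n) (hD : ∀ n, 0 < D n) (m : ℕ) :
    Dense (⋃ n ∈ {n | m ≤ n}, Opn (R n) (D n)) := by
  rw [Metric.dense_iff]
  intro K ε hε
  set η := min (ε / 2) (1 / 2) with hη
  have hη0 : 0 < η := by positivity
  have hη1 : η < ε := by have := min_le_left (ε / 2) (1 / 2); linarith
  have hη2 : η ≤ 1 / 2 := min_le_right _ _
  set ρ := 1 - η with hρ
  have h0 : 0 < ρ := by linarith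
  have h1 : ρ < 1 := by linarith
  obtain ⟨E, hE⟩ := exists_pow_lt_of_lt_one hη0 h1
  have hg : ∀ x : Icc (0 : ℝ) 1, ∃ e ≤ E, |(x : ℝ) - ρ ^ e| ≤ η := fun x =>
    grid ρ h0 h1 E η (by linarith) hE.le x x.2.1 x.2.2
  let pt : ℕ → Icc (0 : ℝ) 1 := fun e => ⟨ρ ^ e, (pow_pos h0 e).le, pow_le_one₀ h0.le h1.le⟩
  let F : Set (Icc (0 : ℝ) 1) := {y | ∃ e ≤ E, y = pt e ∧ ∃ x ∈ K, |(x : ℝ) - ρ ^ e| ≤ η}
  have hFfin : F.Finite := by
    apply Set.Finite.subset ((Finset.range (E + 1)).finite_toSet.image pt)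
    rintro y ⟨e, he, rfl, -⟩
    exact ⟨e, by simp; omega, rfl⟩
  have hFne : F.Nonempty := by
    obtain ⟨x, hx⟩ := K.nonempty
    obtain ⟨e, he, h⟩ := hg x
    exact ⟨pt e, e, he, rfl, x, hx, h⟩
  let K' : KK01 := ⟨⟨F, hFfin.isCompact⟩, hFne⟩
  have hK'mem : ∀ y, y ∈ K' ↔ y ∈ F := fun y => Iff.rfl
  refine ⟨K', ?_, ?_⟩
  · rw [Metric.mem_ball, Metric.NonemptyCompacts.dist_eq]
    refine lt_of_le_of_lt ?_ hη1
    apply Metric.hausdorffDist_le_of_mem_dist hη0.le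
    · rintro y ⟨e, he, rfl, x, hx, h⟩
      refine ⟨x, hx, ?_⟩
      rw [Subtype.dist_eq, Real.dist_eq, abs_sub_comm]
      exact h
    · intro x hx
      obtain ⟨e, he, h⟩ := hg x
      refine ⟨pt e, ⟨e, he, rfl, x, hx, h⟩, ?_⟩
      rw [Subtype.dist_eq, Real.dist_eq]
      exact h
  · rw [mem_iUnion₂]
    refine ⟨max m E, show m ≤ max m E from le_max_left _ _, ρ, h0, h1.le, ?_⟩
    rintro y ⟨e, he, rfl, -⟩
    refine ⟨e, he.trans ((le_max_right m E).trans (hR _)), ?_⟩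
    show |ρ ^ e - ρ ^ e| < _
    simpa using hD _

lemma minkPow_close (K : KK01) (ρ d : ℝ) (r : ℕ) (h0 : 0 < ρ) (h1 : ρ ≤ 1)
    (hK : ∀ x ∈ K, ∃ e ≤ r, |(x : ℝ) - ρ ^ e| < d) (i : ℕ) (z : ℝ) (hz : z ∈ MinkPow K i) :
    ∃ e ≤ i * r, |z - ρ ^ e| ≤ i * d := by
  induction i generalizing z with
  | zero =>
    rw [mem_minkPow_zero] at hz
    subst hz
    exact ⟨0, by simp, by simp⟩
  | succ i ih =>
    obtain ⟨w, hw, x, hx, rfl⟩ := (mem_minkPow_succ K i z).1 hz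
    obtain ⟨hw0, hw1⟩ := minkPow_mem_Icc K i w hw
    obtain ⟨e, he, hwe⟩ := ih w hw
    obtain ⟨f, hf, hxf⟩ := hK x hx
    refine ⟨e + f, by rw [add_mul, one_mul]; omega, ?_⟩
    have hp1 : ρ ^ f ≤ 1 := pow_le_one₀ h0.le h1
    have hp0 : 0 < ρ ^ f := pow_pos h0 f
    have e1 : w * x - ρ ^ (e + f) = w * (x - ρ ^ f) + ρ ^ f * (w - ρ ^ e) := by
      rw [pow_add]; ring
    rw [e1]
    calc |w * (x - ρ ^ f) + ρ ^ f * (w - ρ ^ e)| ≤ |w * (x - ρ ^ f)| + |ρ ^ f * (w - ρ ^ e)| :=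
          abs_add_le _ _
      _ = w * |x - ρ ^ f| + ρ ^ f * |w - ρ ^ e| := by
          rw [abs_mul, abs_mul, abs_of_nonneg hw0, abs_of_pos hp0]
      _ ≤ 1 * |x - ρ ^ f| + 1 * |w - ρ ^ e| := by gcongr
      _ ≤ ((i + 1 : ℕ) : ℝ) * d := by push_cast; linarith

lemma partialSum_close (a : ℕ → ℝ) (ha : ∀ i, 0 < a i) (K : KK01) (ρ d : ℝ) (r : ℕ) (h0 : 0 < ρ)
    (h1 : ρ ≤ 1) (hK : ∀ x ∈ K, ∃ e ≤ r, |(x : ℝ) - ρ ^ e| < d) (n : ℕ) (z : ℝ)
    (hz : z ∈ PartialSum a K n) :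
    ∃ e : ℕ → ℕ, (∀ i, e i ≤ i * r) ∧
      |z - ∑ i ∈ Finset.range (n + 1), a i * ρ ^ (e i)| ≤
        ∑ i ∈ Finset.range (n + 1), a i * (i * d) := by
  induction n generalizing z with
  | zero =>
    rw [mem_partialSum_zero] at hz
    subst hz
    exact ⟨fun _ => 0, fun _ => by simp, by simp⟩
  | succ n ih =>
    obtain ⟨u, hu, b, hb, rfl⟩ := (mem_partialSum_succ a K n z).1 hz
    obtain ⟨e, he, hue⟩ := ih u hu
    obtain ⟨f, hf, hbf⟩ := minkPow_close K ρ d r h0 h1 hK (n + 1) b hb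
    refine ⟨fun i => if i = n + 1 then f else e i, ?_, ?_⟩
    · intro i
      by_cases h : i = n + 1
      · simp only [h, if_true]; exact hf
      · simp only [h, if_false]; exact he i
    · rw [Finset.sum_range_succ, Finset.sum_range_succ (fun i => a i * (i * d))]
      have e2 : ∑ i ∈ Finset.range (n + 1), a i * ρ ^ (if i = n + 1 then f else e i) =
          ∑ i ∈ Finset.range (n + 1), a i * ρ ^ (e i) := by
        apply Finset.sum_congr rfl
        intro i hi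
        rw [if_neg (by have := Finset.mem_range.1 hi; omega)]
      have e4 : (fun i => if i = n + 1 then f else e i) (n + 1) = f := if_pos rfl
      rw [e2, e4]
      have e3 : u + a (n + 1) * b - (∑ i ∈ Finset.range (n + 1), a i * ρ ^ (e i) +
          a (n + 1) * ρ ^ f) = (u - ∑ i ∈ Finset.range (n + 1), a i * ρ ^ (e i)) +
            a (n + 1) * (b - ρ ^ f) := by ring
      rw [e3]
      refine (abs_add_le _ _).trans (add_le_add hue ?_)
      rw [abs_mul, abs_of_pos (ha _)]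
      exact mul_le_mul_of_nonneg_left hbf (ha _).le

lemma tail_pos (a : ℕ → ℝ) (ha : ∀ i, 0 < a i) (hs : Summable a) (N : ℕ) :
    0 < ∑' i, a (i + N) :=
  ((summable_nat_add_iff N).2 hs).tsum_pos (fun i => (ha _).le) 0 (ha _)

lemma cover (a : ℕ → ℝ) (ha : ∀ i, 0 < a i) (hs : Summable a) (K : KK01) (L : NonemptyCompacts ℝ)
    (hL : IsSeries a K L) (r N : ℕ) (hr : 1 ≤ r) (hN : 1 ≤ N) (d : ℝ) (hd0 : 0 < d)
    (hd : N * d * (∑' i, a i) ≤ ∑' i, a (i + N)) (hK : K ∈ Opn r d) :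
    ∃ c : (Fin N → Fin (r * N)) → ℝ, ∀ z ∈ (L : Set ℝ), ∃ e,
      dist z (c e) ≤ 3 * ∑' i, a (i + N) := by
  obtain ⟨ρ, h0, h1, hK⟩ := hK
  set T := ∑' i, a (i + N) with hT
  have hTpos : 0 < T := tail_pos a ha hs N
  refine ⟨fun e => ∑ i : Fin N, a i * ρ ^ ((e i : ℕ)), ?_⟩
  intro z hz
  obtain ⟨n, rfl⟩ : ∃ n, N = n + 1 := ⟨N - 1, by omega⟩
  have hdist : dist (PartialSum a K n) L ≤ T := by
    have := dist_le_tsum_of_dist_le_of_tendsto (fun k => a (k + 1))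
      (fun k => dist_partialSum a ha K k) ((summable_nat_add_iff 1).2 hs) hL n
    refine this.trans (le_of_eq ?_)
    rw [hT]
    apply tsum_congr
    intro i
    congr 1; ring
  have hlt : Metric.hausdorffDist (L : Set ℝ) (PartialSum a K n : Set ℝ) < 2 * T := by
    rw [← Metric.NonemptyCompacts.dist_eq, dist_comm]
    linarith
  have hfin : Metric.hausdorffEDist (L : Set ℝ) (PartialSum a K n : Set ℝ) ≠ ⊤ :=
    Metric.hausdorffEDist_ne_top_of_nonempty_of_bounded L.nonempty (PartialSum a K n).nonempty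
      L.isCompact.isBounded (PartialSum a K n).isCompact.isBounded
  obtain ⟨u, hu, hdu⟩ := Metric.exists_dist_lt_of_hausdorffDist_lt (x := z) hz hlt hfin
  obtain ⟨e, he, hue⟩ := partialSum_close a ha K ρ d r h0 h1 hK n u hu
  have hlt' : ∀ i : Fin (n + 1), e i < r * (n + 1) := by
    intro i
    have h1 := he i
    have h2 : (i : ℕ) ≤ n := by omega
    calc e i ≤ i * r := h1
      _ ≤ n * r := Nat.mul_le_mul_right _ h2
      _ < r * (n + 1) := by rw [mul_comm]; exact Nat.mul_lt_mul_of_pos_left (by omega) (by omega)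
  refine ⟨fun i => ⟨e i, hlt' i⟩, ?_⟩
  have hsum : ∑ i : Fin (n + 1), a i * ρ ^ (e i) =
      ∑ i ∈ Finset.range (n + 1), a i * ρ ^ (e i) :=
    (Finset.sum_range (fun i => a i * ρ ^ (e i))).symm
  have hle : ∑ i ∈ Finset.range (n + 1), a i * (i * d) ≤ T := by
    calc ∑ i ∈ Finset.range (n + 1), a i * (i * d)
        ≤ ∑ i ∈ Finset.range (n + 1), a i * (((n + 1 : ℕ) : ℝ) * d) := by
          apply Finset.sum_le_sum
          intro i hi
          have : (i : ℝ) ≤ ((n + 1 : ℕ) : ℝ) := by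
            exact_mod_cast (Finset.mem_range.1 hi).le
          have := (ha i).le
          gcongr
      _ = (∑ i ∈ Finset.range (n + 1), a i) * (((n + 1 : ℕ) : ℝ) * d) := by rw [Finset.sum_mul]
      _ ≤ (∑' i, a i) * (((n + 1 : ℕ) : ℝ) * d) := by
          apply mul_le_mul_of_nonneg_right _ (by positivity)
          exact hs.sum_le_tsum _ (fun i _ => (ha i).le)
      _ ≤ T := by linarith [hd]
  show dist z (∑ i : Fin (n + 1), a i * ρ ^ (e i)) ≤ 3 * T
  rw [hsum]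
  calc dist z (∑ i ∈ Finset.range (n + 1), a i * ρ ^ (e i))
      ≤ dist z u + dist u (∑ i ∈ Finset.range (n + 1), a i * ρ ^ (e i)) := dist_triangle _ _ _
    _ ≤ 2 * T + T := by
        apply add_le_add hdu.le
        rw [Real.dist_eq]
        exact hue.trans hle
    _ = 3 * T := by ring

theorem A_ok : St_A := by
  intro a ha hs s hs0 hyp
  have hch : ∀ n : ℕ, ∃ r N : ℕ, n + 1 ≤ r ∧ 1 ≤ N ∧
      ((r * N : ℕ) : ℝ) ^ N * (6 * ∑' i, a (i + N)) ^ s < 1 / (n + 1) := by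
    intro n
    obtain ⟨r, hr, N, hN, h⟩ := hyp 6 (1 / (n + 1)) (by norm_num) (by positivity) (n + 1)
    exact ⟨r, N, hr, hN, h⟩
  choose R N hR hN hRN using hch
  set S := ∑' i, a i with hS
  have hSpos : 0 < S := by
    have := tail_pos a ha hs 0
    simpa using this
  let T : ℕ → ℝ := fun n => ∑' i, a (i + N n)
  have hT : ∀ n, 0 < T n := fun n => tail_pos a ha hs (N n)
  let D : ℕ → ℝ := fun n => T n / (N n * S)
  have hNpos : ∀ n, (0 : ℝ) < N n := fun n => by exact_mod_cast hN n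
  have hD : ∀ n, 0 < D n := fun n => div_pos (hT n) (mul_pos (hNpos n) hSpos)
  have hDeq : ∀ n, N n * D n * S = T n := by
    intro n
    show N n * (T n / (N n * S)) * S = T n
    have := hNpos n
    field_simp
  have hres : ∀ᶠ K in residual KK01, ∀ m : ℕ, ∃ n, m ≤ n ∧ K ∈ Opn (R n) (D n) := by
    rw [eventually_countable_forall]
    intro m
    have hop : IsOpen (⋃ n ∈ {n | m ≤ n}, Opn (R n) (D n)) :=
      isOpen_biUnion (fun n _ => isOpen_opn _ _)
    have hde := dense_opn R D (fun n => by have := hR n; omega) hD m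
    filter_upwards [residual_of_dense_open hop hde] with K hK
    rw [mem_iUnion₂] at hK
    obtain ⟨n, hn, h⟩ := hK
    exact ⟨n, hn, h⟩
  filter_upwards [hres] with K hK L hL
  choose n hn hKn using hK
  have hcov : ∀ m, ∃ c : (Fin (N (n m)) → Fin (R (n m) * N (n m))) → ℝ, ∀ z ∈ (L : Set ℝ), ∃ e,
      dist z (c e) ≤ 3 * T (n m) := by
    intro m
    exact cover a ha hs K L hL _ _ (by have := hR (n m); omega) (hN _) _ (hD _) (hDeq _).le (hKn m)
  choose c hc using hcov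
  -- the diameters
  have hinv : ∀ m : ℕ, (1 : ℝ) / ((n m : ℝ) + 1) ≤ 1 / ((m : ℝ) + 1) := by
    intro m
    have : (m : ℝ) ≤ n m := by exact_mod_cast hn m
    exact one_div_le_one_div_of_le (by positivity) (by linarith)
  have hpow1 : ∀ m, (1 : ℝ) ≤ ((R (n m) * N (n m) : ℕ) : ℝ) ^ (N (n m)) := by
    intro m
    apply one_le_pow₀
    have h1 : 1 ≤ R (n m) := by have := hR (n m); omega
    exact_mod_cast Nat.mul_pos h1 (hN (n m))
  have hsm : ∀ m, (6 * T (n m)) ^ s ≤ 1 / ((m : ℝ) + 1) := by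
    intro m
    have h6 : 0 ≤ (6 * T (n m)) ^ s := Real.rpow_nonneg (by have := hT (n m); linarith) s
    calc (6 * T (n m)) ^ s = 1 * (6 * T (n m)) ^ s := (one_mul _).symm
      _ ≤ ((R (n m) * N (n m) : ℕ) : ℝ) ^ (N (n m)) * (6 * T (n m)) ^ s :=
          mul_le_mul_of_nonneg_right (hpow1 m) h6
      _ ≤ _ := (hRN (n m)).le.trans (hinv m)
  have hrad : ∀ m, 6 * T (n m) ≤ (1 / ((m : ℝ) + 1)) ^ (1 / s) := by
    intro m
    have h6 : 0 ≤ 6 * T (n m) := by have := hT (n m); linarith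
    calc 6 * T (n m) = ((6 * T (n m)) ^ s) ^ (1 / s) := by
          rw [← Real.rpow_mul h6, mul_one_div_cancel hs0.ne', Real.rpow_one]
      _ ≤ _ := Real.rpow_le_rpow (Real.rpow_nonneg h6 s) (hsm m) (by positivity)
  have ht0 : Tendsto (fun m : ℕ => (1 : ℝ) / ((m : ℝ) + 1)) atTop (𝓝 0) :=
    tendsto_one_div_add_atTop_nhds_zero_nat
  have htr : Tendsto (fun m : ℕ => ENNReal.ofReal ((1 / ((m : ℝ) + 1)) ^ (1 / s))) atTop (𝓝 0) := by
    have h1 : Tendsto (fun m : ℕ => ((1 : ℝ) / ((m : ℝ) + 1)) ^ (1 / s)) atTop (𝓝 (0 ^ (1 / s))) :=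
      ht0.rpow_const (Or.inr (by positivity))
    rw [Real.zero_rpow (by positivity)] at h1
    have h2 := ENNReal.tendsto_ofReal h1
    rwa [ENNReal.ofReal_zero] at h2
  have key := MeasureTheory.Measure.hausdorffMeasure_le_liminf_sum
    (ι := fun m => (Fin (N (n m)) → Fin (R (n m) * N (n m)))) s (L : Set ℝ)
    (l := atTop) _ htr
    (fun m e => Icc (c m e - 3 * T (n m)) (c m e + 3 * T (n m)))
    (Eventually.of_forall (fun m e => by
      rw [Real.ediam_Icc]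
      apply ENNReal.ofReal_le_ofReal
      refine le_trans (le_of_eq ?_) (hrad m)
      ring))
    (Eventually.of_forall (fun m z hz => by
      obtain ⟨e, he⟩ := hc m z hz
      rw [mem_iUnion]
      refine ⟨e, ?_⟩
      rw [Real.dist_eq, abs_le] at he
      constructor <;> linarith [he.1, he.2]))
  have hle : ∀ m, (∑ e : (Fin (N (n m)) → Fin (R (n m) * N (n m))),
      Metric.ediam (Icc (c m e - 3 * T (n m)) (c m e + 3 * T (n m))) ^ s) ≤
        ENNReal.ofReal (1 / ((m : ℝ) + 1)) := by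
    intro m
    have h6 : 0 ≤ 6 * T (n m) := by have := hT (n m); linarith
    have e1 : ∀ e : (Fin (N (n m)) → Fin (R (n m) * N (n m))),
        Metric.ediam (Icc (c m e - 3 * T (n m)) (c m e + 3 * T (n m))) ^ s =
          ENNReal.ofReal ((6 * T (n m)) ^ s) := by
      intro e
      rw [Real.ediam_Icc, show c m e + 3 * T (n m) - (c m e - 3 * T (n m)) = 6 * T (n m) by ring,
        ENNReal.ofReal_rpow_of_nonneg h6 hs0.le]
    rw [Finset.sum_congr rfl (fun e _ => e1 e), Finset.sum_const, Finset.card_univ,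
      Fintype.card_fun, Fintype.card_fin, Fintype.card_fin, nsmul_eq_mul,
      ← ENNReal.ofReal_natCast, ← ENNReal.ofReal_mul (by positivity)]
    apply ENNReal.ofReal_le_ofReal
    refine le_trans (le_of_eq ?_) ((hRN (n m)).le.trans (hinv m))
    push_cast
    rfl
  have ht0' : Tendsto (fun m : ℕ => ENNReal.ofReal ((1 : ℝ) / ((m : ℝ) + 1))) atTop (𝓝 0) := by
    have h2 := ENNReal.tendsto_ofReal ht0
    rwa [ENNReal.ofReal_zero] at h2
  have hlim : liminf (fun m => ∑ e : (Fin (N (n m)) → Fin (R (n m) * N (n m))),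
      Metric.ediam (Icc (c m e - 3 * T (n m)) (c m e + 3 * T (n m))) ^ s) atTop ≤ 0 := by
    calc _ ≤ liminf (fun m : ℕ => ENNReal.ofReal ((1 : ℝ) / ((m : ℝ) + 1))) atTop :=
          liminf_le_liminf (Eventually.of_forall hle)
      _ = 0 := ht0'.liminf_eq
  exact le_antisymm (key.trans hlim) zero_le

end Pool.Agent.R258.MKA
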